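import Pool.Agent.TH903.Semi.Count

set_option autoImplicit false

namespace Pool.Agent.Results.MP_e8229a_co.CountInequality

/-- For every join-irreducible element `f` of a finite (upper) semimodular lattice `L`, twice the
number of elements above `f` plus the number of `x` which are not above the lower cover of `f`
is at most the size of `L` plus the number of `y` such that `f` is below every `z` lying above
everything that is strictly below some join-irreducible `g ≤ y` (that is, `f` is below the join of
the lower covers of the join-irreducible elements below `y`). -/
theorem result :
    ∀ (L : Type) [Lattice L] [Finite L] [IsUpperModularLattice L] (f : L), SupIrred f →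
      2 * Nat.card {x : L // f ≤ x} + Nat.card {x : L // ∃ w : L, w < f ∧ ¬ w ≤ x} ≤
        Nat.card L + Nat.card {y : L // ∀ z : L,
          (∀ g : L, SupIrred g → g ≤ y → ∀ w : L, w < g → w ≤ z) → f ≤ z} := by
  intro L _ _ _ f hf
  exact Pool.Agent.TH903.Semi.count L f hf

end Pool.Agent.Results.MP_e8229a_co.CountInequality
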