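import Pool.Agent.TH903.Semi.Six

set_option autoImplicit false

namespace Pool.Agent.Results.MP_e8229a_co.SixExceptional

/-- Every finite (upper) semimodular lattice with at least two elements, in which at most six
join-irreducible elements `f` are exceptional (there are a coatom `c` and an element `x < f`
with `x` not below `c`, that is, the lower cover of `f` is not below every coatom), has a
join-irreducible element below at most half of its elements. -/
theorem result :
    ∀ (L : Type) [Lattice L] [BoundedOrder L] [Finite L] [IsUpperModularLattice L],
      2 ≤ Nat.card L →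
      {f : L | SupIrred f ∧ ∃ c x : L, IsCoatom c ∧ x < f ∧ ¬ x ≤ c}.ncard ≤ 6 →
        ∃ a : L, SupIrred a ∧ 2 * Nat.card {x : L // a ≤ x} ≤ Nat.card L := by
  intro L _ _ _ _ h2 h6
  exact Pool.Agent.TH903.Semi.six L h2 h6

end Pool.Agent.Results.MP_e8229a_co.SixExceptional
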