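import Pool.Agent.TH903.Semi.Main

set_option autoImplicit false

namespace Pool.Agent.Results.MP_e8229a_co.TwoExceptional

/-- Let `L` be a finite (upper) semimodular lattice, `c` an element and `F` a set of one or two
join-irreducible elements not below `c`, such that for every join-irreducible `g` outside `F`
which is not below all elements of `F`, everything strictly below `g` is below `c`.
Then some element of `F` is below at most half of the elements of `L`. -/
theorem result :
    ∀ (L : Type) [Lattice L] [Finite L] [IsUpperModularLattice L] (c : L) (F : Finset L),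
      F.Nonempty → F.card ≤ 2 →
      (∀ f ∈ F, SupIrred f ∧ ¬ f ≤ c) →
      (∀ g : L, SupIrred g → g ∉ F → (∃ f ∈ F, ¬ g ≤ f) → ∀ w : L, w < g → w ≤ c) →
        ∃ a ∈ F, SupIrred a ∧ 2 * Nat.card {x : L // a ≤ x} ≤ Nat.card L := by
  intro L _ _ _ c F hne hcard hF hc
  obtain ⟨f, hf, h⟩ := Pool.Agent.TH903.Semi.criterion c F hne hcard (fun f hf => (hF f hf).2) hc
  exact ⟨f, hf, (hF f hf).1, h⟩

end Pool.Agent.Results.MP_e8229a_co.TwoExceptional
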